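import Mathlib

/-!
# The smallest chi-binding function of (fork, 4K_1)-free graphs
-/

namespace Pool.Agent.Results.MP_fad78f_co.OrderOfMagnitude

open Finset

/-! ## Structure of (K_4, kite)-free graphs -/

section Structure

variable {V : Type*} (H : SimpleGraph V)

/-- No four pairwise adjacent vertices. -/
def NoK4 : Prop :=
  ∀ a b c d : V, H.Adj a b → H.Adj a c → H.Adj a d → H.Adj b c → H.Adj b d → ¬ H.Adj c d

/-- No induced kite (the complement of the fork): the diamond with central edge `bc` and tips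
`d`, `e` together with a vertex `a` adjacent to `e` only. -/
def NoKite : Prop :=
  ∀ a b c d e : V, H.Adj b c → H.Adj b d → H.Adj b e → H.Adj c d → H.Adj c e → H.Adj a e →
    d ≠ e → ¬ H.Adj d e → a ≠ b → a ≠ c → H.Adj a b ∨ H.Adj a c ∨ H.Adj a d

/-- Adjacency inside the neighbourhood of `v`. -/
def Rel (v x y : V) : Prop := H.Adj x y ∧ H.Adj v x ∧ H.Adj v y

/-- The component of `x` in the neighbourhood of `v`. -/
def comp (v x : V) : Set V := {y | Relation.ReflTransGen (Rel H v) x y}

/-- The set `S` can be properly coloured with `r` colours. -/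
def Col (S : Set V) (r : ℕ) : Prop :=
  ∃ c : V → Fin r, ∀ x ∈ S, ∀ y ∈ S, H.Adj x y → c x ≠ c y

/-- The union of all components of neighbourhoods that are not 3-colourable. -/
def Kst : Set V := {x | ∃ v, H.Adj v x ∧ ¬ Col H (comp H v x) 3}

variable {H}

lemma Rel.symm' {v x y : V} (h : Rel H v x y) : Rel H v y x := ⟨h.1.symm, h.2.2, h.2.1⟩

lemma comp_symm {v x y : V} (h : y ∈ comp H v x) : x ∈ comp H v y := by
  change Relation.ReflTransGen (Rel H v) x y at h
  change Relation.ReflTransGen (Rel H v) y x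
  induction h with
  | refl => exact Relation.ReflTransGen.refl
  | tail _ hbc ih => exact Relation.ReflTransGen.head hbc.symm' ih

lemma comp_eq {v x y : V} (h : y ∈ comp H v x) : comp H v y = comp H v x := by
  ext z
  constructor
  · intro hz
    exact Relation.ReflTransGen.trans h hz
  · intro hz
    exact Relation.ReflTransGen.trans (comp_symm h) hz

lemma comp_adj {v x y : V} (hx : H.Adj v x) (h : y ∈ comp H v x) : H.Adj v y := by
  have h' : Relation.ReflTransGen (Rel H v) x y := h
  cases h'.cases_tail with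
  | inl h => rw [h]; exact hx
  | inr h => obtain ⟨z, _, hz⟩ := h; exact hz.2.2

lemma mem_comp_of_adj {v x y z : V} (hx : H.Adj v x) (hy : y ∈ comp H v x) (hz : H.Adj v z)
    (hyz : H.Adj y z) : z ∈ comp H v x :=
  Relation.ReflTransGen.tail hy ⟨hyz, comp_adj hx hy, hz⟩

lemma claim1 (h4 : NoK4 H) (hk : NoKite H) {v x0 a e0 : V} (hx0 : H.Adj v x0) (hav : a ≠ v)
    (hva : ¬ H.Adj v a) (he0 : e0 ∈ comp H v x0) (hae : H.Adj a e0) {y z : V}
    (hy : y ∈ comp H v x0) (hz : z ∈ comp H v x0) (hyz : H.Adj y z) :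
    H.Adj a y ∨ H.Adj a z := by
  have hgood : ∀ y, Relation.ReflTransGen (Rel H v) e0 y →
      (H.Adj a y ∨ ∀ z, Rel H v y z → H.Adj a z) := by
    intro y hy
    induction hy with
    | refl => exact Or.inl hae
    | @tail b c _ hbc ih =>
      rcases ih with hab | hab
      · by_cases hac : H.Adj a c
        · exact Or.inl hac
        · right
          intro z hcz
          by_cases hzb : z = b
          · rw [hzb]; exact hab
          have hnzb : ¬ H.Adj z b := by
            intro hzb'
            exact h4 v b c z hbc.2.1 hbc.2.2 hcz.2.2 hbc.1 hzb'.symm hcz.1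
          have hane : a ≠ c := by
            intro h
            rw [h] at hva
            exact hva hbc.2.2
          rcases hk a v c z b hbc.2.2 hcz.2.2 hbc.2.1 hcz.1 hbc.1.symm hab hzb hnzb hav hane
            with h | h | h
          · exact absurd h.symm hva
          · exact absurd h hac
          · exact h
      · exact Or.inl (hab c hbc)
  have hy' : Relation.ReflTransGen (Rel H v) e0 y := by
    have := comp_eq he0
    have h2 : y ∈ comp H v e0 := by rw [this]; exact hy
    exact h2
  rcases hgood y hy' with h | h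
  · exact Or.inl h
  · exact Or.inr (h z ⟨hyz, comp_adj hx0 hy, comp_adj hx0 hz⟩)

open Classical in
lemma claim2 (h4 : NoK4 H) (hk : NoKite H) {v x0 : V} (hx0 : H.Adj v x0)
    (hheavy : ¬ Col H (comp H v x0) 3) {a a' e0 e0' : V} (hav : a ≠ v) (hva : ¬ H.Adj v a)
    (he0 : e0 ∈ comp H v x0) (hae : H.Adj a e0) (hav' : a' ≠ v) (hva' : ¬ H.Adj v a')
    (he0' : e0' ∈ comp H v x0) (hae' : H.Adj a' e0') : ¬ H.Adj a a' := by
  intro haa
  apply hheavy
  refine ⟨fun w => if ¬ H.Adj a w then 0 else if ¬ H.Adj a' w then 1 else 2, ?_⟩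
  intro y hy z hz hyz heq
  have h1 := claim1 h4 hk hx0 hav hva he0 hae hy hz hyz
  have h2 := claim1 h4 hk hx0 hav' hva' he0' hae' hy hz hyz
  by_cases ha : H.Adj a y <;> by_cases hb : H.Adj a z <;> by_cases hc : H.Adj a' y <;>
    by_cases hd : H.Adj a' z <;> simp [ha, hb, hc, hd] at heq h1 h2
  exact h4 a a' y z haa ha hb hc hd hyz

open Classical in
lemma local2 (h4 : NoK4 H) (hk : NoKite H) {u : V} (hu : u ∈ Kst H) :
    Col H {w | H.Adj u w} 2 := by
  obtain ⟨v, hvu, hheavy⟩ := hu
  refine ⟨fun w => if w ∈ comp H v u then 0 else 1, ?_⟩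
  intro w hw w' hw' hww heq
  have huu : u ∈ comp H v u := Relation.ReflTransGen.refl
  have hw1 : H.Adj u w := hw
  have hw1' : H.Adj u w' := hw'
  have key : ∀ w, H.Adj u w → w ∉ comp H v u → ¬ H.Adj v w := by
    intro w h1 h2 h3
    exact h2 (mem_comp_of_adj hvu huu h3 h1)
  by_cases hc : w ∈ comp H v u
  · by_cases hc' : w' ∈ comp H v u
    · have a1 := comp_adj hvu hc
      have a2 := comp_adj hvu hc'
      exact h4 u v w w' hvu.symm hw1 hw1' a1 a2 hww
    · simp [hc, hc'] at heq
  · by_cases hc' : w' ∈ comp H v u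
    · simp [hc, hc'] at heq
    · have b1 := key w hw1 hc
      have b2 := key w' hw1' hc'
      have n1 : w ≠ v := by
        intro h
        rw [h] at hww
        exact b2 hww
      have n2 : w' ≠ v := by
        intro h
        rw [h] at hww
        exact b1 hww.symm
      exact claim2 h4 hk hvu hheavy n1 b1 huu hw1.symm n2 b2 huu hw1'.symm hww

open Classical in
lemma local3 (u : V) : Col H {w | H.Adj u w ∧ w ∉ Kst H} 3 := by
  let col : Set V → V → Fin 3 := fun S => if h : Col H S 3 then h.choose else fun _ => 0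
  refine ⟨fun w => col (comp H u w) w, ?_⟩
  intro x hx y hy hxy heq
  have hyx : y ∈ comp H u x := Relation.ReflTransGen.single ⟨hxy, hx.1, hy.1⟩
  have he : comp H u y = comp H u x := comp_eq hyx
  have hC : Col H (comp H u x) 3 := by
    by_contra hcon
    exact hx.2 ⟨u, hx.1, hcon⟩
  have hsp := hC.choose_spec x Relation.ReflTransGen.refl y hyx hxy
  simp only [he] at heq
  simp only [col, dif_pos hC] at heq
  exact hsp heq

end Structure

/-! ## Counting independent sets -/

section Counting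

/-- The constant in the counting lemma. -/
noncomputable def gam (r : ℕ) : ℝ := (1 - r / 11) / Real.log 16

lemma log16_pos : 0 < Real.log 16 := Real.log_pos (by norm_num)

lemma gam_pos {r : ℕ} (hr : r ≤ 10) : 0 < gam r := by
  unfold gam
  have : (r : ℝ) ≤ 10 := by exact_mod_cast hr
  apply div_pos _ log16_pos
  linarith

lemma gam_le_half {r : ℕ} : gam r ≤ 1 / 2 := by
  unfold gam
  have h2 : (0.6931471803 : ℝ) < Real.log 2 := Real.log_two_gt_d9
  have h16 : Real.log 16 = 4 * Real.log 2 := by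
    rw [show (16 : ℝ) = 2 ^ 4 by norm_num, Real.log_pow]; norm_num
  have hp := log16_pos
  rw [div_le_iff₀ hp, h16]
  have : (0 : ℝ) ≤ r := Nat.cast_nonneg r
  linarith

variable {V : Type*}

/-- Average size of the members of a large family of subsets of `A`. -/
lemma avg_bound {r : ℕ} (A : Finset V) (F : Finset (Finset V))
    (hF : ∀ T ∈ F, T ⊆ A) (hne : F.Nonempty) (h : 2 ^ A.card ≤ F.card ^ r) :
    gam r * (F.card * Real.log F.card) ≤ ∑ T ∈ F, (T.card : ℝ) := by
  have hcpos : (0 : ℝ) < F.card := by exact_mod_cast hne.card_pos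
  set s := Real.log 16 with hs
  have hspos : 0 < s := log16_pos
  set M := ∑ T ∈ F, (T.card : ℝ) with hM
  set m := M / F.card with hm
  have hexp : ∀ n : ℕ, (1 / 16 : ℝ) ^ n = Real.exp (-(s * n)) := by
    intro n
    rw [Real.exp_neg, mul_comm, Real.exp_nat_mul, hs, Real.exp_log (by norm_num)]
    rw [one_div, inv_pow]
  -- upper bound
  have hup : ∑ T ∈ F, (1 / 16 : ℝ) ^ T.card ≤ (17 / 16 : ℝ) ^ A.card := by
    calc ∑ T ∈ F, (1 / 16 : ℝ) ^ T.card ≤ ∑ T ∈ A.powerset, (1 / 16 : ℝ) ^ T.card := by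
          apply Finset.sum_le_sum_of_subset_of_nonneg
          · intro T hT
            exact Finset.mem_powerset.2 (hF T hT)
          · intro _ _ _
            positivity
      _ = (17 / 16 : ℝ) ^ A.card := by
          have := Finset.sum_pow_mul_eq_add_pow (1 / 16 : ℝ) 1 A
          simp only [one_pow, mul_one] at this
          rw [this]
          norm_num
  -- lower bound (Jensen)
  have hlow : (F.card : ℝ) * Real.exp (-(s * m)) ≤ ∑ T ∈ F, (1 / 16 : ℝ) ^ T.card := by
    have h1 : ∀ T ∈ F, Real.exp (-(s * m)) * (1 - s * T.card + s * m) ≤ (1 / 16 : ℝ) ^ T.card := by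
      intro T _
      rw [hexp]
      have h2 := Real.add_one_le_exp (-(s * (T.card : ℝ)) + s * m)
      have h3 : Real.exp (-(s * (T.card : ℝ))) =
          Real.exp (-(s * m)) * Real.exp (-(s * (T.card : ℝ)) + s * m) := by
        rw [← Real.exp_add]; congr 1; ring
      rw [h3]
      apply mul_le_mul_of_nonneg_left _ (Real.exp_pos _).le
      linarith
    have h4 := Finset.sum_le_sum h1
    rw [← Finset.mul_sum] at h4
    have h5 : ∑ T ∈ F, (1 - s * (T.card : ℝ) + s * m) = F.card := by
      rw [Finset.sum_add_distrib, Finset.sum_sub_distrib, ← Finset.mul_sum, ← hM]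
      simp only [Finset.sum_const, nsmul_eq_mul, mul_one]
      have : (F.card : ℝ) * m = M := by rw [hm]; field_simp
      linear_combination s * this
    rw [h5] at h4
    linarith [mul_comm (F.card : ℝ) (Real.exp (-(s * m)))]
  have hcomb := hlow.trans hup
  have hlog : Real.log F.card - s * m ≤ A.card * Real.log (17 / 16) := by
    have := Real.log_le_log (by positivity) hcomb
    rw [Real.log_mul hcpos.ne' (Real.exp_pos _).ne', Real.log_exp, Real.log_pow] at this
    linarith
  have hA : (A.card : ℝ) * Real.log 2 ≤ r * Real.log F.card := by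
    have h1 : (2 : ℝ) ^ A.card ≤ (F.card : ℝ) ^ r := by exact_mod_cast h
    have := Real.log_le_log (by positivity) h1
    rw [Real.log_pow, Real.log_pow] at this
    exact this
  have h17 : 11 * Real.log (17 / 16) ≤ Real.log 2 := by
    have : Real.log ((17 / 16 : ℝ) ^ 11) ≤ Real.log 2 := by
      apply Real.log_le_log (by positivity) (by norm_num)
    rw [Real.log_pow] at this
    exact_mod_cast this
  have hA2 : 11 * ((A.card : ℝ) * Real.log (17 / 16)) ≤ r * Real.log F.card := by
    have := mul_le_mul_of_nonneg_left h17 (Nat.cast_nonneg (α := ℝ) A.card)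
    linarith
  have hfin : (1 - r / 11) * Real.log F.card ≤ s * m := by
    linarith
  have hMm : M = m * F.card := by rw [hm]; field_simp
  rw [hMm]
  unfold gam
  rw [← hs]
  have h6 : (1 - (r : ℝ) / 11) * Real.log F.card / s ≤ m := by
    rw [div_le_iff₀ hspos]
    linarith
  calc (1 - (r : ℝ) / 11) / s * (F.card * Real.log F.card)
      = ((1 - (r : ℝ) / 11) * Real.log F.card / s) * F.card := by ring
    _ ≤ m * F.card := mul_le_mul_of_nonneg_right h6 hcpos.le

variable (H : SimpleGraph V)

/-- Independent set (as a finset). -/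
def Ind (W : Finset V) : Prop := ∀ x ∈ W, ∀ y ∈ W, ¬ H.Adj x y

variable {H}

open Classical in
lemma pow_card_le {r : ℕ} (A : Finset V) (hcol : Col H (A : Set V) r)
    (F : Finset (Finset V)) (hF : ∀ T ⊆ A, Ind H T → T ∈ F) : 2 ^ A.card ≤ F.card ^ r := by
  obtain ⟨c, hc⟩ := hcol
  have h1 : A.card = ∑ i : Fin r, (A.filter (fun x => c x = i)).card := by
    rw [← Finset.card_eq_sum_card_fiberwise]
    intro x _
    simp
  rw [h1, ← Finset.prod_pow_eq_pow_sum]
  calc ∏ i : Fin r, 2 ^ (A.filter (fun x => c x = i)).card ≤ ∏ _i : Fin r, F.card := by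
        apply Finset.prod_le_prod'
        intro i _
        rw [← Finset.card_powerset]
        apply Finset.card_le_card
        intro T hT
        rw [Finset.mem_powerset] at hT
        apply hF T (hT.trans (Finset.filter_subset _ _))
        intro x hx y hy hxy
        have hx' := Finset.mem_filter.1 (hT hx)
        have hy' := Finset.mem_filter.1 (hT hy)
        exact hc x hx'.1 y hy'.1 hxy (hx'.2.trans hy'.2.symm)
    _ = F.card ^ r := by simp

/-- Convexity inequality. -/
lemma convex_ineq {g D I : ℝ} (hg0 : 0 < g) (hg : g ≤ 1 / 2) (hD : 1 ≤ D) (hI : 1 ≤ I) :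
    g * (1 + I) * Real.log D ≤ D + g * (I * Real.log I) := by
  have hDpos : 0 < D := by linarith
  have hIpos : 0 < I := by linarith
  have h1 : Real.log (D / I) ≤ D / I - 1 := Real.log_le_sub_one_of_pos (by positivity)
  rw [Real.log_div hDpos.ne' hIpos.ne'] at h1
  have h2 : I * (Real.log D - Real.log I) ≤ D - I := by
    have := mul_le_mul_of_nonneg_left h1 hIpos.le
    have h3 : I * (D / I - 1) = D - I := by field_simp
    linarith
  have h3 : Real.log D ≤ D - 1 := Real.log_le_sub_one_of_pos hDpos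
  have h4 : 0 ≤ Real.log D := Real.log_nonneg hD
  have h5 : g * (I * (Real.log D - Real.log I)) ≤ g * (D - I) :=
    mul_le_mul_of_nonneg_left h2 hg0.le
  have h6 : g * Real.log D ≤ (1 - g) * D := by
    have : g * Real.log D ≤ g * D := mul_le_mul_of_nonneg_left (by linarith) hg0.le
    have : g * D ≤ (1 - g) * D := mul_le_mul_of_nonneg_right (by linarith) hDpos.le
    linarith
  have h7 : 0 ≤ g * I := by positivity
  nlinarith

open Classical in
lemma vertex_bound {r : ℕ} (hr : r ≤ 10) {S : Finset V} {D : ℝ} (hD : 1 ≤ D) {v : V}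
    (hv : v ∈ S) (hcol : Col H {w | w ∈ S ∧ H.Adj v w} r) :
    gam r * Real.log D * ((S.powerset.filter (Ind H)).card : ℝ) ≤
      ∑ W ∈ S.powerset.filter (Ind H),
        (D * (if v ∈ W then 1 else 0) + ((W.filter (H.Adj v)).card : ℝ)) := by
  set I := S.powerset.filter (Ind H) with hI
  set N := S.filter (H.Adj v) with hN
  set g : Finset V → Finset V := fun W => W \ insert v N with hg
  have hmaps : ∀ W ∈ I, g W ∈ I.image g := fun W hW => Finset.mem_image_of_mem g hW
  rw [← Finset.sum_fiberwise_of_maps_to hmaps, Finset.card_eq_sum_card_fiberwise hmaps]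
  push_cast
  rw [Finset.mul_sum]
  apply Finset.sum_le_sum
  intro Y hY
  obtain ⟨W0, hW0, hgW0⟩ := Finset.mem_image.1 hY
  have hW0' := Finset.mem_filter.1 hW0
  have hW0S := Finset.mem_powerset.1 hW0'.1
  have hYW0 : Y ⊆ W0 := by rw [← hgW0]; exact Finset.sdiff_subset
  have hYS : Y ⊆ S := hYW0.trans hW0S
  have hYind : Ind H Y := fun x hx y hy => hW0'.2 x (hYW0 hx) y (hYW0 hy)
  have hYd : ∀ y ∈ Y, y ≠ v ∧ ¬ H.Adj v y := by
    intro y hy
    have hy' := hy
    rw [← hgW0] at hy'
    simp only [hg, hN, Finset.mem_sdiff, Finset.mem_insert, Finset.mem_filter, not_or,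
      not_and] at hy'
    exact ⟨hy'.2.1, hy'.2.2 (hYS hy)⟩
  have hvY : v ∉ Y := fun h => (hYd v h).1 rfl
  set FY := I.filter (fun W => g W = Y) with hFY
  set F0 := FY.filter (fun W => ¬ v ∈ W) with hF0
  have hF1 : FY.filter (fun W => v ∈ W) = {insert v Y} := by
    ext W
    rw [Finset.mem_filter, Finset.mem_singleton]
    constructor
    · rintro ⟨hW, hvW⟩
      obtain ⟨hWI, hWY⟩ := Finset.mem_filter.1 hW
      obtain ⟨_, hWind⟩ := Finset.mem_filter.1 hWI
      ext x
      rw [Finset.mem_insert]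
      constructor
      · intro hx
        by_cases hxv : x = v
        · exact Or.inl hxv
        · right
          rw [← hWY]
          simp only [hg, hN, Finset.mem_sdiff, Finset.mem_insert, Finset.mem_filter, not_or,
            not_and]
          exact ⟨hx, hxv, fun _ => hWind v hvW x hx⟩
      · rintro (hx | hx)
        · rw [hx]; exact hvW
        · rw [← hWY] at hx
          exact (Finset.mem_sdiff.1 hx).1
    · intro hW
      rw [hW]
      refine ⟨Finset.mem_filter.2 ⟨Finset.mem_filter.2 ⟨Finset.mem_powerset.2 ?_, ?_⟩, ?_⟩,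
        Finset.mem_insert_self _ _⟩
      · exact Finset.insert_subset hv hYS
      · intro x hx y hy
        rcases Finset.mem_insert.1 hx with hx | hx <;> rcases Finset.mem_insert.1 hy with hy | hy
        · rw [hx, hy]; exact H.irrefl
        · rw [hx]; exact (hYd y hy).2
        · rw [hy]; exact fun h => (hYd x hx).2 h.symm
        · exact hYind x hx y hy
      · ext x
        simp only [hg, hN, Finset.mem_sdiff, Finset.mem_insert, Finset.mem_filter, not_or,
          not_and]
        constructor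
        · rintro ⟨h1 | h1, h2, _⟩
          · exact absurd h1 h2
          · exact h1
        · intro hx
          exact ⟨Or.inr hx, (hYd x hx).1, fun _ => (hYd x hx).2⟩
  -- decomposition of members of `F0`
  have hF0mem : ∀ W ∈ F0, W ⊆ S ∧ Ind H W ∧ v ∉ W ∧ Y ⊆ W ∧ ∀ x ∈ W, H.Adj v x ∨ x ∈ Y := by
    intro W hW
    obtain ⟨hW1, hvW⟩ := Finset.mem_filter.1 hW
    obtain ⟨hWI, hWY⟩ := Finset.mem_filter.1 hW1
    obtain ⟨hWS, hWind⟩ := Finset.mem_filter.1 hWI
    rw [Finset.mem_powerset] at hWS
    refine ⟨hWS, hWind, hvW, ?_, ?_⟩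
    · rw [← hWY]; exact Finset.sdiff_subset
    · intro x hx
      by_cases hax : H.Adj v x
      · exact Or.inl hax
      · right
        rw [← hWY]
        simp only [hg, hN, Finset.mem_sdiff, Finset.mem_insert, Finset.mem_filter, not_or,
          not_and]
        refine ⟨hx, ?_, fun _ => hax⟩
        intro h
        rw [h] at hx
        exact hvW hx
  set F := F0.image (fun W => W.filter (H.Adj v)) with hFdef
  have hinj : Set.InjOn (fun W : Finset V => W.filter (H.Adj v)) (F0 : Set (Finset V)) := by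
    intro W hW W' hW' heq
    obtain ⟨_, _, _, h4, h5⟩ := hF0mem W hW
    obtain ⟨_, _, _, h4', h5'⟩ := hF0mem W' hW'
    have heq' : W.filter (H.Adj v) = W'.filter (H.Adj v) := heq
    ext x
    constructor
    · intro hx
      rcases h5 x hx with h | h
      · have : x ∈ W'.filter (H.Adj v) := by
          rw [← heq']; exact Finset.mem_filter.2 ⟨hx, h⟩
        exact (Finset.mem_filter.1 this).1
      · exact h4' h
    · intro hx
      rcases h5' x hx with h | h
      · have : x ∈ W.filter (H.Adj v) := by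
          rw [heq']; exact Finset.mem_filter.2 ⟨hx, h⟩
        exact (Finset.mem_filter.1 this).1
      · exact h4 h
  set A := N.filter (fun u => ∀ y ∈ Y, ¬ H.Adj u y) with hA
  have hFA : ∀ T ∈ F, T ⊆ A := by
    intro T hT x hx
    obtain ⟨W, hW, hWT⟩ := Finset.mem_image.1 hT
    obtain ⟨h1, h2, h3, h4, h5⟩ := hF0mem W hW
    rw [← hWT] at hx
    obtain ⟨hxW, hxv⟩ := Finset.mem_filter.1 hx
    refine Finset.mem_filter.2 ⟨Finset.mem_filter.2 ⟨h1 hxW, hxv⟩, ?_⟩
    intro y hy
    exact h2 x hxW y (h4 hy)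
  have hAF : ∀ T ⊆ A, Ind H T → T ∈ F := by
    intro T hTA hT
    have hTx : ∀ x ∈ T, x ∈ S ∧ H.Adj v x ∧ ∀ y ∈ Y, ¬ H.Adj x y := by
      intro x hx
      obtain ⟨h1, h2⟩ := Finset.mem_filter.1 (hTA hx)
      obtain ⟨h3, h4⟩ := Finset.mem_filter.1 h1
      exact ⟨h3, h4, h2⟩
    refine Finset.mem_image.2 ⟨Y ∪ T, ?_, ?_⟩
    · refine Finset.mem_filter.2 ⟨Finset.mem_filter.2 ⟨Finset.mem_filter.2
        ⟨Finset.mem_powerset.2 ?_, ?_⟩, ?_⟩, ?_⟩
      · apply Finset.union_subset hYS
        intro x hx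
        exact (hTx x hx).1
      · intro x hx y hy
        rcases Finset.mem_union.1 hx with hx | hx <;> rcases Finset.mem_union.1 hy with hy | hy
        · exact hYind x hx y hy
        · exact fun h => (hTx y hy).2.2 x hx h.symm
        · exact (hTx x hx).2.2 y hy
        · exact hT x hx y hy
      · ext x
        simp only [hg, hN, Finset.mem_sdiff, Finset.mem_insert, Finset.mem_filter, not_or,
          not_and, Finset.mem_union]
        constructor
        · rintro ⟨h1 | h1, h2, h3⟩
          · exact h1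
          · exact absurd (hTx x h1).2.1 (h3 (hTx x h1).1)
        · intro hx
          exact ⟨Or.inl hx, (hYd x hx).1, fun _ => (hYd x hx).2⟩
      · intro h
        rcases Finset.mem_union.1 h with h | h
        · exact hvY h
        · exact H.irrefl (hTx v h).2.1
    · ext x
      rw [Finset.mem_filter, Finset.mem_union]
      constructor
      · rintro ⟨h1 | h1, h2⟩
        · exact absurd h2 (hYd x h1).2
        · exact h1
      · intro hx
        exact ⟨Or.inr hx, (hTx x hx).2.1⟩
  have hcolA : Col H (A : Set V) r := by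
    obtain ⟨c, hc⟩ := hcol
    refine ⟨c, ?_⟩
    intro x hx y hy hxy
    have h1 := Finset.mem_filter.1 (Finset.mem_filter.1 (Finset.mem_coe.1 hx)).1
    have h2 := Finset.mem_filter.1 (Finset.mem_filter.1 (Finset.mem_coe.1 hy)).1
    exact hc x h1 y h2 hxy
  have hFne : F.Nonempty := ⟨∅, hAF ∅ (Finset.empty_subset _) (by intro x hx; simp at hx)⟩
  have hav := avg_bound A F hFA hFne (pow_card_le A hcolA F hAF)
  have hcardF : F.card = F0.card := Finset.card_image_of_injOn hinj
  have hsumF : ∑ T ∈ F, (T.card : ℝ) = ∑ W ∈ F0, ((W.filter (H.Adj v)).card : ℝ) :=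
    Finset.sum_image (fun x hx y hy h => hinj hx hy h)
  have hI1 : (1 : ℝ) ≤ F.card := by exact_mod_cast hFne.card_pos
  have hconv := convex_ineq (gam_pos hr) gam_le_half hD hI1
  have hsplit : ∑ W ∈ FY, (D * (if v ∈ W then 1 else 0) + ((W.filter (H.Adj v)).card : ℝ)) =
      D + ∑ T ∈ F, (T.card : ℝ) := by
    rw [← Finset.sum_filter_add_sum_filter_not FY (fun W => v ∈ W), hF1, Finset.sum_singleton,
      hsumF]
    have e1 : (insert v Y).filter (H.Adj v) = ∅ := by
      rw [Finset.filter_eq_empty_iff]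
      intro x hx
      rcases Finset.mem_insert.1 hx with hx | hx
      · rw [hx]; exact H.irrefl
      · exact (hYd x hx).2
    rw [e1]
    simp only [Finset.mem_insert_self, if_true, mul_one, Finset.card_empty, Nat.cast_zero,
      add_zero]
    congr 1
    apply Finset.sum_congr rfl
    intro W hW
    have : v ∉ W := (hF0mem W hW).2.2.1
    simp [this]
  have hcard : (FY.card : ℝ) = 1 + F.card := by
    have h1 : ∑ W ∈ FY, (1 : ℝ) = 1 + ∑ W ∈ F0, (1 : ℝ) := by
      rw [← Finset.sum_filter_add_sum_filter_not FY (fun W => v ∈ W), hF1, Finset.sum_singleton]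
    simp only [Finset.sum_const, nsmul_eq_mul, mul_one] at h1
    rw [h1, hcardF]
  rw [hsplit, hcard]
  calc gam r * Real.log D * (1 + (F.card : ℝ)) = gam r * (1 + F.card) * Real.log D := by ring
    _ ≤ D + gam r * (F.card * Real.log F.card) := hconv
    _ ≤ D + ∑ T ∈ F, (T.card : ℝ) := by linarith

open Classical in
/-- The counting lemma: independent sets in graphs with locally `r`-colourable
neighbourhoods. -/
lemma count_bound {r : ℕ} (hr : r ≤ 10) (S : Finset V) {D : ℝ} (hD : 1 ≤ D) {k : ℕ}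
    (hcol : ∀ v ∈ S, Col H {w | w ∈ S ∧ H.Adj v w} r)
    (hdeg : ∀ v ∈ S, ((S.filter (H.Adj v)).card : ℝ) ≤ D)
    (hα : ∀ W ⊆ S, Ind H W → W.card ≤ k) :
    (S.card : ℝ) * (gam r * Real.log D) ≤ 2 * D * k := by
  set I := S.powerset.filter (Ind H) with hI
  have hIne : I.Nonempty := ⟨∅, Finset.mem_filter.2
    ⟨Finset.mem_powerset.2 (Finset.empty_subset _), by intro x hx; simp at hx⟩⟩
  have hIpos : (0 : ℝ) < I.card := by exact_mod_cast hIne.card_pos
  have h1 : ∑ v ∈ S, gam r * Real.log D * (I.card : ℝ) ≤ ∑ v ∈ S, ∑ W ∈ I,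
      (D * (if v ∈ W then 1 else 0) + ((W.filter (H.Adj v)).card : ℝ)) :=
    Finset.sum_le_sum (fun v hv => vertex_bound hr hD hv (hcol v hv))
  rw [Finset.sum_comm] at h1
  have h2 : ∀ W ∈ I, ∑ v ∈ S, (D * (if v ∈ W then 1 else 0) + ((W.filter (H.Adj v)).card : ℝ)) ≤
      2 * D * k := by
    intro W hW
    obtain ⟨hWS, hWind⟩ := Finset.mem_filter.1 hW
    rw [Finset.mem_powerset] at hWS
    rw [Finset.sum_add_distrib, ← Finset.mul_sum]
    have e1 : ∑ v ∈ S, (if v ∈ W then (1 : ℝ) else 0) = W.card := by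
      rw [← Finset.sum_filter, Finset.filter_mem_eq_inter, Finset.inter_eq_right.2 hWS]
      simp
    have e2 : ∑ v ∈ S, ((W.filter (H.Adj v)).card : ℝ) ≤ D * W.card := by
      have e3 : ∀ v ∈ S, ((W.filter (H.Adj v)).card : ℝ) = ∑ w ∈ W, if H.Adj v w then 1 else 0 := by
        intro v _
        rw [← Finset.sum_filter]
        simp
      rw [Finset.sum_congr rfl e3, Finset.sum_comm]
      calc ∑ w ∈ W, ∑ v ∈ S, (if H.Adj v w then (1 : ℝ) else 0) ≤ ∑ w ∈ W, D := by
            apply Finset.sum_le_sum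
            intro w hw
            have := hdeg w (hWS hw)
            rw [← Finset.sum_filter]
            simp only [Finset.sum_const, nsmul_eq_mul, mul_one]
            have e4 : S.filter (fun v => H.Adj v w) = S.filter (H.Adj w) := by
              ext x
              simp [H.adj_comm]
            rw [e4]
            exact this
        _ = D * W.card := by simp [mul_comm]
    have e5 : (W.card : ℝ) ≤ k := by exact_mod_cast hα W hWS hWind
    rw [e1]
    have e6 : D * (W.card : ℝ) ≤ D * k := mul_le_mul_of_nonneg_left e5 (by linarith)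
    linarith
  have h3 := Finset.sum_le_sum h2
  have h4 := h1.trans h3
  simp only [Finset.sum_const, nsmul_eq_mul] at h4
  have h5 : (I.card : ℝ) * ((S.card : ℝ) * (gam r * Real.log D)) ≤ I.card * (2 * D * k) := by
    linarith
  exact le_of_mul_le_mul_left h5 hIpos

open Classical in
lemma deg_bound {r k : ℕ} {S : Finset V} {v : V} (hcol : Col H {w | w ∈ S ∧ H.Adj v w} r)
    (hα : ∀ W ⊆ S, Ind H W → W.card ≤ k) : (S.filter (H.Adj v)).card ≤ r * k := by
  obtain ⟨c, hc⟩ := hcol
  have h1 : (S.filter (H.Adj v)).card =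
      ∑ i : Fin r, ((S.filter (H.Adj v)).filter (fun x => c x = i)).card := by
    rw [← Finset.card_eq_sum_card_fiberwise]
    intro x _
    simp
  rw [h1]
  calc ∑ i : Fin r, ((S.filter (H.Adj v)).filter (fun x => c x = i)).card ≤ ∑ _i : Fin r, k := by
        apply Finset.sum_le_sum
        intro i _
        apply hα
        · exact (Finset.filter_subset _ _).trans (Finset.filter_subset _ _)
        · intro x hx y hy hxy
          have hx' := Finset.mem_filter.1 hx
          have hy' := Finset.mem_filter.1 hy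
          exact hc x (Finset.mem_filter.1 hx'.1) y (Finset.mem_filter.1 hy'.1) hxy
            (hx'.2.trans hy'.2.symm)
    _ = r * k := by simp

open Classical in
/-- A `(K_4, kite)`-free graph with independence number at most `k` has at most
`37 k^2 / log k` vertices. -/
theorem order_bound [Fintype V] (h4 : NoK4 H) (hk : NoKite H) {k : ℕ} (hk2 : 2 ≤ k)
    (hα : ∀ W : Finset V, Ind H W → W.card ≤ k) :
    (Fintype.card V : ℝ) ≤ 37 * (k : ℝ) ^ 2 / Real.log k - (k : ℝ) ^ 2 / (2 * Real.log k) := by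
  set S1 : Finset V := Finset.univ.filter (fun v => v ∈ Kst H) with hS1
  set S2 : Finset V := Finset.univ.filter (fun v => ¬ v ∈ Kst H) with hS2
  have hkpos : (2 : ℝ) ≤ k := by exact_mod_cast hk2
  have hlogk : 0 < Real.log k := Real.log_pos (by linarith)
  have hcard : (Fintype.card V : ℝ) = S1.card + S2.card := by
    have := Finset.sum_filter_add_sum_filter_not (Finset.univ : Finset V)
      (fun v => v ∈ Kst H) (fun _ => (1 : ℝ))
    simp only [Finset.sum_const, nsmul_eq_mul, mul_one, Finset.card_univ] at this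
    exact this.symm
  have hc1 : ∀ v ∈ S1, Col H {w | w ∈ S1 ∧ H.Adj v w} 2 := by
    intro v hv
    obtain ⟨c, hc⟩ := local2 h4 hk (Finset.mem_filter.1 hv).2
    exact ⟨c, fun x hx y hy hxy => hc x hx.2 y hy.2 hxy⟩
  have hc2 : ∀ v ∈ S2, Col H {w | w ∈ S2 ∧ H.Adj v w} 3 := by
    intro v _
    obtain ⟨c, hc⟩ := local3 (H := H) v
    exact ⟨c, fun x hx y hy hxy => hc x ⟨hx.2, (Finset.mem_filter.1 hx.1).2⟩ y
      ⟨hy.2, (Finset.mem_filter.1 hy.1).2⟩ hxy⟩
  have b1 := count_bound (r := 2) (by norm_num) S1 (D := 2 * k) (by linarith) (k := k) hc1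
    (fun v hv => by
      have := deg_bound (hc1 v hv) (fun W _ hW => hα W hW)
      exact_mod_cast this) (fun W _ hW => hα W hW)
  have b2 := count_bound (r := 3) (by norm_num) S2 (D := 3 * k) (by linarith) (k := k) hc2
    (fun v hv => by
      have := deg_bound (hc2 v hv) (fun W _ hW => hα W hW)
      exact_mod_cast this) (fun W _ hW => hα W hW)
  have l16 := log16_pos
  have h2 : Real.log 2 < 0.6931471808 := Real.log_two_lt_d9
  have h16 : Real.log 16 = 4 * Real.log 2 := by
    rw [show (16 : ℝ) = 2 ^ 4 by norm_num, Real.log_pow]; norm_num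
  have hl2 : Real.log k ≤ Real.log (2 * k) := Real.log_le_log (by linarith) (by linarith)
  have hl3 : Real.log k ≤ Real.log (3 * k) := Real.log_le_log (by linarith) (by linarith)
  have n1 : (0 : ℝ) ≤ S1.card := Nat.cast_nonneg _
  have n2 : (0 : ℝ) ≤ S2.card := Nat.cast_nonneg _
  have c1 : (S1.card : ℝ) * ((9 / 11) / Real.log 16 * Real.log k) ≤ 4 * (k : ℝ) ^ 2 := by
    have : (S1.card : ℝ) * ((9 / 11) / Real.log 16 * Real.log k) ≤
        (S1.card : ℝ) * (gam 2 * Real.log (2 * k)) := by
      apply mul_le_mul_of_nonneg_left _ n1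
      have : gam 2 = (9 / 11) / Real.log 16 := by unfold gam; norm_num
      rw [this]
      exact mul_le_mul_of_nonneg_left hl2 (by positivity)
    linarith
  have c2 : (S2.card : ℝ) * ((8 / 11) / Real.log 16 * Real.log k) ≤ 6 * (k : ℝ) ^ 2 := by
    have : (S2.card : ℝ) * ((8 / 11) / Real.log 16 * Real.log k) ≤
        (S2.card : ℝ) * (gam 3 * Real.log (3 * k)) := by
      apply mul_le_mul_of_nonneg_left _ n2
      have : gam 3 = (8 / 11) / Real.log 16 := by unfold gam; norm_num
      rw [this]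
      exact mul_le_mul_of_nonneg_left hl3 (by positivity)
    linarith
  have d1 : (S1.card : ℝ) * Real.log k ≤ (44 / 9) * Real.log 16 * (k : ℝ) ^ 2 := by
    have e : (S1.card : ℝ) * ((9 / 11) / Real.log 16 * Real.log k) =
      ((S1.card : ℝ) * Real.log k) * ((9 / 11) / Real.log 16) := by ring
    rw [e, ← le_div_iff₀ (by positivity)] at c1
    refine c1.trans (le_of_eq ?_)
    field_simp
    ring
  have d2 : (S2.card : ℝ) * Real.log k ≤ (66 / 8) * Real.log 16 * (k : ℝ) ^ 2 := by
    have e : (S2.card : ℝ) * ((8 / 11) / Real.log 16 * Real.log k) =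
      ((S2.card : ℝ) * Real.log k) * ((8 / 11) / Real.log 16) := by ring
    rw [e, ← le_div_iff₀ (by positivity)] at c2
    refine c2.trans (le_of_eq ?_)
    field_simp
    ring
  have e1 : 37 * (k : ℝ) ^ 2 / Real.log k - (k : ℝ) ^ 2 / (2 * Real.log k) =
      (36.5 * (k : ℝ) ^ 2) / Real.log k := by
    field_simp
    norm_num
  rw [hcard, e1, le_div_iff₀ hlogk, add_mul]
  have h5 : Real.log 16 ≤ 2.77259 := by rw [h16]; linarith
  have h6 : (0 : ℝ) ≤ (k : ℝ) ^ 2 := by positivity
  nlinarith

/-- Every set of vertices can be partitioned into at most `(|S| + k) / 2` cliques of size at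
most two. -/
lemma matching_cover {k : ℕ} (hα : ∀ W : Finset V, Ind H W → W.card ≤ k) (n : ℕ) :
    ∀ S : Finset V, S.card = n → ∃ m : ℕ, 2 * m ≤ S.card + k ∧ ∃ c : V → ℕ,
      (∀ x ∈ S, c x < m) ∧ ∀ x ∈ S, ∀ y ∈ S, x ≠ y → c x = c y → H.Adj x y := by
  classical
  induction n using Nat.strong_induction_on with
  | _ n ih =>
    intro S hS
    by_cases hind : Ind H S
    · refine ⟨S.card, by have := hα S hind; omega, ?_⟩
      let e := S.equivFin
      refine ⟨fun x => if h : x ∈ S then (e ⟨x, h⟩).val else 0, ?_, ?_⟩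
      · intro x hx
        simp only [dif_pos hx]
        exact (e ⟨x, hx⟩).isLt
      · intro x hx y hy hne heq
        simp only [dif_pos hx, dif_pos hy] at heq
        have := e.injective (Fin.ext heq)
        exact absurd (congrArg Subtype.val this) hne
    · unfold Ind at hind
      push Not at hind
      obtain ⟨x, hx, y, hy, hxy⟩ := hind
      have hne : x ≠ y := hxy.ne
      have hyS : y ∈ S.erase x := Finset.mem_erase.2 ⟨hne.symm, hy⟩
      have hc1 : (S.erase x).card = S.card - 1 := Finset.card_erase_of_mem hx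
      have hc2 : ((S.erase x).erase y).card = (S.erase x).card - 1 :=
        Finset.card_erase_of_mem hyS
      have hpos : 0 < S.card := Finset.card_pos.2 ⟨x, hx⟩
      have hpos2 : 0 < (S.erase x).card := Finset.card_pos.2 ⟨y, hyS⟩
      obtain ⟨m, hm, c, hc, hc'⟩ := ih ((S.erase x).erase y).card (by omega)
        ((S.erase x).erase y) rfl
      refine ⟨m + 1, by omega, fun z => if z = x ∨ z = y then m else c z, ?_, ?_⟩
      · intro z hz
        by_cases h : z = x ∨ z = y
        · simp [h]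
        · simp only [h, if_false]
          push Not at h
          have := hc z (Finset.mem_erase.2 ⟨h.2, Finset.mem_erase.2 ⟨h.1, hz⟩⟩)
          omega
      · intro z hz w hw hzw heq
        have hmem : ∀ z ∈ S, ¬ (z = x ∨ z = y) → z ∈ (S.erase x).erase y := by
          intro z hz h
          push Not at h
          exact Finset.mem_erase.2 ⟨h.2, Finset.mem_erase.2 ⟨h.1, hz⟩⟩
        by_cases h1 : z = x ∨ z = y <;> by_cases h2 : w = x ∨ w = y
        · rcases h1 with h1 | h1 <;> rcases h2 with h2 | h2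
          · exact absurd (h1.trans h2.symm) hzw
          · rw [h1, h2]; exact hxy
          · rw [h1, h2]; exact hxy.symm
          · exact absurd (h1.trans h2.symm) hzw
        · simp only [h1, if_true, h2, if_false] at heq
          have := hc w (hmem w hw h2)
          omega
        · simp only [h1, if_false, h2, if_true] at heq
          have := hc z (hmem z hz h1)
          omega
        · simp only [h1, if_false, h2] at heq
          exact hc' z (hmem z hz h1) w (hmem w hw h2) hzw heq

end Counting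

/-! ## The class of (fork, 4K_1)-free graphs -/

/-- The fork: the tree with vertices `0, 1, 2, 3, 4` and edges `01`, `02`, `03`, `34`. -/
def fork : SimpleGraph (Fin 5) where
  Adj i j := (i = 0 ∧ (j = 1 ∨ j = 2 ∨ j = 3)) ∨ (j = 0 ∧ (i = 1 ∨ i = 2 ∨ i = 3)) ∨
    (i = 3 ∧ j = 4) ∨ (i = 4 ∧ j = 3)
  symm := ⟨by decide⟩
  loopless := ⟨by decide⟩

/-- A graph is (fork, `4K_1`)-free: no induced subgraph is isomorphic to the fork or to the
edgeless graph on four vertices. -/
def InClass {V : Type*} (G : SimpleGraph V) : Prop :=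
  IsEmpty (fork ↪g G) ∧ IsEmpty ((⊥ : SimpleGraph (Fin 4)) ↪g G)

/-- The chromatic numbers of the (fork, `4K_1`)-free graphs with clique number `k`. -/
def chromaticValues (k : ℕ) : Set ℕ :=
  {m | ∃ (n : ℕ) (G : SimpleGraph (Fin n)), InClass G ∧ G.cliqueNum = k ∧
    G.chromaticNumber = (m : ℕ∞)}

/-- The smallest chi-binding function `f*(k)`. -/
noncomputable def fstar (k : ℕ) : ℕ := sSup (chromaticValues k)

/-- The Ramsey number `R(3,k)`: the least `n` such that every graph on `n` vertices contains a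
triangle or an independent set of size `k`. -/
noncomputable def ramseyThree (k : ℕ) : ℕ :=
  sInf {n | ∀ G : SimpleGraph (Fin n), ¬ (G.CliqueFree 3 ∧ G.IndepSetFree k)}

section Final

variable {V : Type*} {G : SimpleGraph V}

lemma noK4_of_inClass (h : InClass G) : NoK4 Gᶜ := by
  intro a b c d hab hac had hbc hbd hcd
  rw [SimpleGraph.compl_adj] at hab hac had hbc hbd hcd
  apply h.2.false
  refine ⟨⟨![a, b, c, d], ?_⟩, ?_⟩
  · intro i j hij
    fin_cases i <;> fin_cases j <;> simp_all [eq_comm]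
  · intro i j
    change G.Adj (![a, b, c, d] i) (![a, b, c, d] j) ↔ (⊥ : SimpleGraph (Fin 4)).Adj i j
    fin_cases i <;> fin_cases j <;> simp [hab, hac, had, hbc, hbd, hcd, G.adj_comm b a,
      G.adj_comm c a, G.adj_comm d a, G.adj_comm c b, G.adj_comm d b, G.adj_comm d c]

lemma noKite_of_inClass (h : InClass G) : NoKite Gᶜ := by
  intro a b c d e hbc hbd hbe hcd hce hae hde hnde hab hac
  by_contra hcon
  push Not at hcon
  obtain ⟨h1, h2, h3⟩ := hcon
  rw [SimpleGraph.compl_adj] at hbc hbd hbe hcd hce hae hnde h1 h2 h3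
  have hadne : a ≠ d := by
    intro had
    rw [had] at hae
    exact hnde hae
  have e1 : G.Adj a b := by by_contra hx; exact h1 ⟨hab, hx⟩
  have e2 : G.Adj a c := by by_contra hx; exact h2 ⟨hac, hx⟩
  have e3 : G.Adj a d := by by_contra hx; exact h3 ⟨hadne, hx⟩
  have e4 : G.Adj d e := by by_contra hx; exact hnde ⟨hde, hx⟩
  apply h.1.false
  refine ⟨⟨![a, b, c, d, e], ?_⟩, ?_⟩
  · intro i j hij
    fin_cases i <;> fin_cases j <;> simp_all [eq_comm]
  · intro i j
    change G.Adj (![a, b, c, d, e] i) (![a, b, c, d, e] j) ↔ fork.Adj i j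
    fin_cases i <;> fin_cases j <;> simp [fork, hbc, hbd, hbe, hcd, hce, hae, e1, e2, e3, e4,
      e1.symm, e2.symm, e3.symm, e4.symm, G.adj_comm c b, G.adj_comm d b, G.adj_comm e b,
      G.adj_comm d c, G.adj_comm e c, G.adj_comm e a]

lemma ind_card_le [Finite V] {k : ℕ} (hk : G.cliqueNum ≤ k) (W : Finset V) (hW : Ind Gᶜ W) :
    W.card ≤ k := by
  have : G.IsClique (W : Set V) := by
    intro x hx y hy hne
    by_contra hcon
    exact hW x hx y hy ((SimpleGraph.compl_adj _ _ _).2 ⟨hne, hcon⟩)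
  exact (SimpleGraph.IsClique.card_le_cliqueNum (tc := this)).trans hk

theorem vertices_bound [Fintype V] (h : InClass G) {k : ℕ} (hk2 : 2 ≤ k)
    (hk : G.cliqueNum ≤ k) :
    (Fintype.card V : ℝ) ≤ 37 * (k : ℝ) ^ 2 / Real.log k - (k : ℝ) ^ 2 / (2 * Real.log k) :=
  order_bound (noK4_of_inClass h) (noKite_of_inClass h) hk2 (ind_card_le hk)

theorem colorable_bound [Fintype V] {k : ℕ} (hk : G.cliqueNum ≤ k) :
    ∃ m : ℕ, 2 * m ≤ Fintype.card V + k ∧ G.Colorable m := by
  obtain ⟨m, hm, c, hc, hc'⟩ := matching_cover (H := Gᶜ) (ind_card_le hk)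
    (Finset.univ : Finset V).card Finset.univ rfl
  refine ⟨m, by simpa using hm, ⟨SimpleGraph.Coloring.mk
    (fun v => (⟨c v, hc v (Finset.mem_univ v)⟩ : Fin m)) ?_⟩⟩
  intro v w hvw heq
  have h1 : c v = c w := congrArg Fin.val heq
  have h2 := hc' v (Finset.mem_univ v) w (Finset.mem_univ w) hvw.ne h1
  rw [SimpleGraph.compl_adj] at h2
  exact h2.2 hvw

/-- Chromatic numbers of members of the class. -/
theorem chromatic_bound {k m : ℕ} (hk2 : 2 ≤ k) (hm : m ∈ chromaticValues k) :
    (m : ℝ) ≤ 19 * (k : ℝ) ^ 2 / Real.log k := by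
  obtain ⟨n, G, hG, hk, hchi⟩ := hm
  obtain ⟨q, hq, hcol⟩ := colorable_bound (G := G) hk.le
  have h1 := vertices_bound hG hk2 hk.le
  have h2 : m ≤ q := by
    have := hcol.chromaticNumber_le
    rw [hchi] at this
    exact_mod_cast this
  have h3 : (2 : ℝ) * m ≤ Fintype.card (Fin n) + k := by
    have : 2 * m ≤ Fintype.card (Fin n) + k := by omega
    exact_mod_cast this
  have hkpos : (2 : ℝ) ≤ k := by exact_mod_cast hk2
  have hlogk : 0 < Real.log k := Real.log_pos (by linarith)
  have hlogle : Real.log k ≤ k - 1 := Real.log_le_sub_one_of_pos (by linarith)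
  have h4 : (k : ℝ) ≤ (k : ℝ) ^ 2 / Real.log k := by
    rw [le_div_iff₀ hlogk]
    nlinarith
  have h5 : (k : ℝ) ^ 2 / (2 * Real.log k) = (1 / 2) * ((k : ℝ) ^ 2 / Real.log k) := by
    field_simp
  have h6 : 37 * (k : ℝ) ^ 2 / Real.log k = 37 * ((k : ℝ) ^ 2 / Real.log k) := by ring
  have h7 : 19 * (k : ℝ) ^ 2 / Real.log k = 19 * ((k : ℝ) ^ 2 / Real.log k) := by ring
  rw [h5, h6] at h1
  rw [h7]
  linarith

lemma inClass_top (k : ℕ) : InClass (⊤ : SimpleGraph (Fin k)) := by
  constructor
  · constructor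
    intro f
    have h1 : ¬ (⊤ : SimpleGraph (Fin k)).Adj (f 1) (f 2) := by
      rw [f.map_adj_iff]
      simp [fork]
    rw [SimpleGraph.top_adj] at h1
    exact h1 (fun h => by simpa using f.injective h)
  · constructor
    intro f
    have h1 : ¬ (⊤ : SimpleGraph (Fin k)).Adj (f 0) (f 1) := by
      rw [f.map_adj_iff]
      simp
    rw [SimpleGraph.top_adj] at h1
    exact h1 (fun h => by simpa using f.injective h)

lemma mem_of_top (k : ℕ) : k ∈ chromaticValues k := by
  refine ⟨k, ⊤, inClass_top k, ?_, ?_⟩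
  · apply le_antisymm
    · obtain ⟨s, hs⟩ := (⊤ : SimpleGraph (Fin k)).exists_isNClique_cliqueNum
      rw [← hs.card_eq]
      simpa using Finset.card_le_univ s
    · have : (⊤ : SimpleGraph (Fin k)).IsClique ((Finset.univ : Finset (Fin k)) : Set (Fin k)) := by
        intro x _ y _ hne
        exact hne
      simpa using SimpleGraph.IsClique.card_le_cliqueNum (tc := this)
  · simp [SimpleGraph.chromaticNumber_top]

/-- Every finite graph of the class has a clique-number bounded order. -/
lemma bddAbove_chromaticValues (k : ℕ) : BddAbove (chromaticValues k) := by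
  have hlogK : (2 : ℕ) ≤ k + 2 := by omega
  refine ⟨⌈19 * ((k + 2 : ℕ) : ℝ) ^ 2 / Real.log ((k + 2 : ℕ) : ℝ) + (k : ℝ)⌉₊, ?_⟩
  rintro m ⟨n, G, hG, hk, hchi⟩
  obtain ⟨q, hq, hcol⟩ := colorable_bound (G := G) hk.le
  have h1 := vertices_bound hG hlogK (by omega : G.cliqueNum ≤ k + 2)
  have h2 : m ≤ q := by
    have := hcol.chromaticNumber_le
    rw [hchi] at this
    exact_mod_cast this
  have h3 : (2 : ℝ) * m ≤ Fintype.card (Fin n) + k := by
    have : 2 * m ≤ Fintype.card (Fin n) + k := by omega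
    exact_mod_cast this
  have hlogk : 0 < Real.log ((k + 2 : ℕ) : ℝ) := Real.log_pos (by push_cast; linarith [Nat.cast_nonneg (α := ℝ) k])
  have h5 : (((k + 2 : ℕ) : ℝ)) ^ 2 / (2 * Real.log ((k + 2 : ℕ) : ℝ)) = (1 / 2) * ((((k + 2 : ℕ) : ℝ)) ^ 2 / Real.log ((k + 2 : ℕ) : ℝ)) := by
    field_simp
  have h6 : 37 * (((k + 2 : ℕ) : ℝ)) ^ 2 / Real.log ((k + 2 : ℕ) : ℝ) = 37 * ((((k + 2 : ℕ) : ℝ)) ^ 2 / Real.log ((k + 2 : ℕ) : ℝ)) := by ring
  have h7 : 19 * (((k + 2 : ℕ) : ℝ)) ^ 2 / Real.log ((k + 2 : ℕ) : ℝ) = 19 * ((((k + 2 : ℕ) : ℝ)) ^ 2 / Real.log ((k + 2 : ℕ) : ℝ)) := by ring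
  have h8 : 0 ≤ (((k + 2 : ℕ) : ℝ)) ^ 2 / Real.log ((k + 2 : ℕ) : ℝ) := by positivity
  have h9 : (m : ℝ) ≤ 19 * ((k + 2 : ℕ) : ℝ) ^ 2 / Real.log ((k + 2 : ℕ) : ℝ) + (k : ℝ) := by
    rw [h5, h6] at h1
    rw [h7]
    have : (0 : ℝ) ≤ k := Nat.cast_nonneg k
    linarith
  exact_mod_cast h9.trans (Nat.le_ceil _)

/-- Ramsey's theorem for `R(3,k)`: the set defining `ramseyThree k` is nonempty. -/
lemma ramsey_nonempty (k : ℕ) :
    {n | ∀ G : SimpleGraph (Fin n), ¬ (G.CliqueFree 3 ∧ G.IndepSetFree k)}.Nonempty := by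
  refine ⟨⌈37 * ((k + 2 : ℕ) : ℝ) ^ 2 / Real.log ((k + 2 : ℕ) : ℝ)⌉₊ + 1, ?_⟩
  rintro G ⟨h3, hk⟩
  have hK : (2 : ℕ) ≤ k + 2 := by omega
  have h4 : NoK4 G := by
    intro a b c d hab hac _ hbc _ _
    exact h3 {a, b, c} (SimpleGraph.is3Clique_triple_iff.2 ⟨hab, hac, hbc⟩)
  have hkite : NoKite G := by
    intro a b c d e hbc hbd _ hcd _ _ _ _ _ _
    exact absurd (SimpleGraph.is3Clique_triple_iff.2 ⟨hbc, hbd, hcd⟩) (h3 {b, c, d})
  have hα : ∀ W : Finset _, Ind G W → W.card ≤ k + 2 := by
    intro W hW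
    by_contra hcon
    push Not at hcon
    obtain ⟨T, hTW, hT⟩ := Finset.exists_subset_card_eq (show k ≤ W.card by omega)
    exact hk T ⟨fun x hx y hy _ => hW x (hTW hx) y (hTW hy), hT⟩
  have h1 := order_bound h4 hkite hK hα
  have hlogk : 0 < Real.log ((k + 2 : ℕ) : ℝ) :=
    Real.log_pos (by push_cast; linarith [Nat.cast_nonneg (α := ℝ) k])
  have h8 : 0 ≤ (((k + 2 : ℕ) : ℝ)) ^ 2 / (2 * Real.log ((k + 2 : ℕ) : ℝ)) := by positivity
  have h9 := Nat.le_ceil (37 * ((k + 2 : ℕ) : ℝ) ^ 2 / Real.log ((k + 2 : ℕ) : ℝ))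
  rw [Fintype.card_fin] at h1
  push_cast at h1 h9 h8
  linarith

lemma inClass_compl {n : ℕ} {G : SimpleGraph (Fin n)} (h3 : G.CliqueFree 3) : InClass Gᶜ := by
  have key : ∀ x y z : Fin n, x ≠ y → x ≠ z → y ≠ z → ¬ Gᶜ.Adj x y → ¬ Gᶜ.Adj x z →
      ¬ Gᶜ.Adj y z → False := by
    intro x y z hxy hxz hyz h1 h2 h3'
    rw [SimpleGraph.compl_adj] at h1 h2 h3'
    have e1 : G.Adj x y := by by_contra h; exact h1 ⟨hxy, h⟩
    have e2 : G.Adj x z := by by_contra h; exact h2 ⟨hxz, h⟩
    have e3 : G.Adj y z := by by_contra h; exact h3' ⟨hyz, h⟩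
    exact h3 {x, y, z} (SimpleGraph.is3Clique_triple_iff.2 ⟨e1, e2, e3⟩)
  constructor
  · constructor
    intro f
    apply key (f 1) (f 2) (f 3) (f.injective.ne (by decide)) (f.injective.ne (by decide))
      (f.injective.ne (by decide)) <;> rw [f.map_adj_iff] <;> simp [fork]
  · constructor
    intro f
    apply key (f 1) (f 2) (f 3) (f.injective.ne (by decide)) (f.injective.ne (by decide))
      (f.injective.ne (by decide)) <;> rw [f.map_adj_iff] <;> simp

/-- The lower bound coming from triangle-free graphs. -/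
lemma lower_bound {k : ℕ} (hk : 1 ≤ k) :
    ((ramseyThree (k + 1) : ℝ) - 1) / 2 ≤ fstar k := by
  classical
  have hmem : ∀ G : SimpleGraph (Fin (ramseyThree (k + 1))),
      ¬ (G.CliqueFree 3 ∧ G.IndepSetFree (k + 1)) := Nat.sInf_mem (ramsey_nonempty (k + 1))
  rcases Nat.eq_zero_or_pos (ramseyThree (k + 1)) with h0 | hpos
  · rw [h0]
    have : (0 : ℝ) ≤ fstar k := Nat.cast_nonneg _
    norm_num
    linarith
  obtain ⟨n, hn⟩ : ∃ n, ramseyThree (k + 1) = n + 1 := ⟨ramseyThree (k + 1) - 1, by omega⟩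
  have hnot : n ∉ {n | ∀ G : SimpleGraph (Fin n), ¬ (G.CliqueFree 3 ∧ G.IndepSetFree (k + 1))} :=
    Nat.notMem_of_lt_sInf (show n < ramseyThree (k + 1) by omega)
  rw [Set.mem_ofPred_eq] at hnot
  push Not at hnot
  obtain ⟨G, h3, hfree⟩ := hnot
  rw [hn] at hmem
  -- clique number of the complement
  have hle : Gᶜ.cliqueNum ≤ k := by
    obtain ⟨s, hs⟩ := Gᶜ.exists_isNClique_cliqueNum
    by_contra hcon
    push Not at hcon
    have h1 : Gᶜ.CliqueFree (k + 1) := (SimpleGraph.cliqueFree_compl G).2 hfree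
    exact (h1.mono (by omega : k + 1 ≤ Gᶜ.cliqueNum)) s hs
  have hge : k ≤ Gᶜ.cliqueNum := by
    by_contra hcon
    push Not at hcon
    apply hmem (G.map Fin.castSuccEmb)
    constructor
    · intro s hs
      rw [SimpleGraph.is3Clique_iff] at hs
      obtain ⟨a, b, c, hab, hac, hbc, _⟩ := hs
      rw [SimpleGraph.map_adj] at hab hac hbc
      obtain ⟨a1, b1, h1, ha1, hb1⟩ := hab
      obtain ⟨a2, c2, h2, ha2, hc2⟩ := hac
      obtain ⟨b3, c3, h3', hb3, hc3⟩ := hbc
      have e1 : a2 = a1 := Fin.castSuccEmb.injective (ha2.trans ha1.symm)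
      have e2 : b3 = b1 := Fin.castSuccEmb.injective (hb3.trans hb1.symm)
      have e3 : c3 = c2 := Fin.castSuccEmb.injective (hc3.trans hc2.symm)
      rw [e1] at h2
      rw [e2, e3] at h3'
      exact h3 {a1, b1, c2} (SimpleGraph.is3Clique_triple_iff.2 ⟨h1, h2, h3'⟩)
    · intro s hs
      -- remove the last vertex
      have hcard : k ≤ (s.erase (Fin.last n)).card := by
        have := Finset.pred_card_le_card_erase (s := s) (a := Fin.last n)
        rw [hs.card_eq] at this
        omega
      set t : Finset (Fin n) := Finset.univ.filter (fun x => Fin.castSucc x ∈ s) with ht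
      have hts : t.map Fin.castSuccEmb = s.erase (Fin.last n) := by
        ext x
        rw [Finset.mem_map, Finset.mem_erase]
        constructor
        · rintro ⟨y, hy, hyx⟩
          rw [← hyx]
          refine ⟨?_, (Finset.mem_filter.1 hy).2⟩
          exact (Fin.castSucc_lt_last y).ne
        · rintro ⟨h1, h2⟩
          obtain ⟨y, hy⟩ := Fin.exists_castSucc_eq.2 h1
          exact ⟨y, Finset.mem_filter.2 ⟨Finset.mem_univ _, by rw [hy]; exact h2⟩, hy⟩
      have htc : k ≤ t.card := by
        rw [← Finset.card_map Fin.castSuccEmb, hts]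
        exact hcard
      have hcl : Gᶜ.IsClique (t : Set (Fin n)) := by
        intro x hx y hy hne
        rw [SimpleGraph.compl_adj]
        refine ⟨hne, fun hxy => ?_⟩
        have hx' := (Finset.mem_filter.1 (Finset.mem_coe.1 hx)).2
        have hy' := (Finset.mem_filter.1 (Finset.mem_coe.1 hy)).2
        have hne' : Fin.castSucc x ≠ Fin.castSucc y := fun h => hne (Fin.castSucc_injective n h)
        exact hs.1 hx' hy' hne' ((SimpleGraph.map_adj _ _ _ _).2 ⟨x, y, hxy, rfl, rfl⟩)
      have := SimpleGraph.IsClique.card_le_cliqueNum (tc := hcl)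
      omega
  have hclique : Gᶜ.cliqueNum = k := le_antisymm hle hge
  -- chromatic number
  have hcol := SimpleGraph.colorable_chromaticNumber_of_fintype Gᶜ
  set m := ENat.toNat Gᶜ.chromaticNumber with hm
  have hchi : Gᶜ.chromaticNumber = (m : ℕ∞) := by
    rw [hm, ENat.natCast_toNat]
    exact SimpleGraph.chromaticNumber_ne_top_iff_exists.2 ⟨m, hcol⟩
  have hmem' : m ∈ chromaticValues k := ⟨n, Gᶜ, inClass_compl h3, hclique, hchi⟩
  have hnm : n ≤ 2 * m := by
    obtain ⟨c⟩ := hcol
    have := Finset.card_le_mul_card_image_of_maps_to (s := (Finset.univ : Finset (Fin n)))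
      (t := (Finset.univ : Finset (Fin m))) (f := c) (fun _ _ => Finset.mem_univ _) 2 (by
        intro b _
        by_contra hcon
        push Not at hcon
        obtain ⟨x, y, z, hx, hy, hz, hxy, hxz, hyz⟩ := Finset.two_lt_card_iff.1 hcon
        have hx' := (Finset.mem_filter.1 hx).2
        have hy' := (Finset.mem_filter.1 hy).2
        have hz' := (Finset.mem_filter.1 hz).2
        have key : ∀ x y, x ≠ y → c x = b → c y = b → G.Adj x y := by
          intro x y hne h1 h2
          by_contra h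
          exact c.valid ((SimpleGraph.compl_adj _ _ _).2 ⟨hne, h⟩) (h1.trans h2.symm)
        exact h3 {x, y, z} (SimpleGraph.is3Clique_triple_iff.2
          ⟨key x y hxy hx' hy', key x z hxz hx' hz', key y z hyz hy' hz'⟩))
    simpa using this
  have hle2 : m ≤ fstar k := le_csSup (bddAbove_chromaticValues k) hmem'
  rw [hn]
  have h1 : (n : ℝ) ≤ 2 * m := by exact_mod_cast hnm
  have h2 : (m : ℝ) ≤ fstar k := by exact_mod_cast hle2
  push_cast
  linarith

end Final

/-- **Main theorem.** Let `f*(k)` be the smallest chi-binding function of the class of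
(fork, `4K_1`)-free graphs.

1. `f*(k)` is the largest chromatic number of a (fork, `4K_1`)-free graph with clique number `k`.
2. For `k ≥ 2` we have `(R(3,k+1) - 1) / 2 ≤ f*(k) ≤ 19 k^2 / log k`.
3. For `k ≥ 2` every (fork, `4K_1`)-free graph with clique number at most `k` has at most
   `37 k^2 / log k` vertices.
4. The Ramsey number `R(3,k)` used here is well defined. -/
theorem result :
    (∀ k : ℕ, IsGreatest (chromaticValues k) (fstar k)) ∧
    (∀ k : ℕ, 2 ≤ k → ((ramseyThree (k + 1) : ℝ) - 1) / 2 ≤ fstar k ∧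
      (fstar k : ℝ) ≤ 19 * (k : ℝ) ^ 2 / Real.log k) ∧
    (∀ k : ℕ, 2 ≤ k → ∀ (n : ℕ) (G : SimpleGraph (Fin n)), InClass G → G.cliqueNum ≤ k →
      (n : ℝ) ≤ 37 * (k : ℝ) ^ 2 / Real.log k) ∧
    (∀ k : ℕ, ∀ G : SimpleGraph (Fin (ramseyThree k)),
      ¬ (G.CliqueFree 3 ∧ G.IndepSetFree k)) := by
  have hgr : ∀ k : ℕ, IsGreatest (chromaticValues k) (fstar k) := fun k =>
    ⟨Nat.sSup_mem ⟨k, mem_of_top k⟩ (bddAbove_chromaticValues k),
      fun m hm => le_csSup (bddAbove_chromaticValues k) hm⟩
  refine ⟨hgr, fun k hk => ⟨lower_bound (by omega), chromatic_bound hk (hgr k).1⟩, ?_,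
    fun k => Nat.sInf_mem (ramsey_nonempty k)⟩
  intro k hk n G hG hω
  have h1 := vertices_bound hG hk hω
  have hkpos : (2 : ℝ) ≤ k := by exact_mod_cast hk
  have hlogk : 0 < Real.log k := Real.log_pos (by linarith)
  have h2 : 0 ≤ (k : ℝ) ^ 2 / (2 * Real.log k) := by positivity
  rw [Fintype.card_fin] at h1
  linarith

end Pool.Agent.Results.MP_fad78f_co.OrderOfMagnitude
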